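import Mathlib
import Pool.Agent.N728.QL.Def
import Pool.Agent.TH882.FL

/-!
# QL/FLC: the fundamental lemma of the sieve for at most 8 classes for every prime

The lemmas `fl_crt`, `fl_modcount`, `fl_classcount`, `fl_goodcount` and the structure of the proof
are taken from `Pool/Agent/N792/FlGen.lean`.
-/

set_option autoImplicit false
set_option maxHeartbeats 4000000

namespace Pool.Agent.N136.QL

open Finset

/-- Chinese remainders for a class modulo `M` and classes modulo primes not dividing `M`. -/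
lemma fl_crt (M ν : ℕ) (hν : ν < M) (T : Finset ℕ) (c : ℕ → ℕ) (hT : ∀ p ∈ T, p.Prime ∧ ¬ p ∣ M)
    (hc : ∀ p ∈ T, c p < p) :
    ∃ x : ℕ, ∀ n : ℕ, (n % M = ν ∧ ∀ p ∈ T, n % p = c p) ↔ n ≡ x [MOD (M * ∏ p ∈ T, p)] := by
  classical
  induction T using Finset.induction_on with
  | empty =>
    refine ⟨ν, fun n => ?_⟩
    simp only [Finset.notMem_empty, false_imp_iff, implies_true, and_true, Finset.prod_empty, mul_one]
    unfold Nat.ModEq
    rw [Nat.mod_eq_of_lt hν]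
  | insert p T hpT ih =>
    obtain ⟨x, hx⟩ := ih (fun p' hp' => hT p' (mem_insert_of_mem hp'))
      (fun p' hp' => hc p' (mem_insert_of_mem hp'))
    have hpp := hT p (mem_insert_self _ _)
    have hcop : (M * ∏ p ∈ T, p).Coprime p := by
      apply Nat.Coprime.mul_left
      · exact ((Nat.Prime.coprime_iff_not_dvd hpp.1).2 hpp.2).symm
      · apply Nat.Coprime.prod_left
        intro p' hp'
        have := hT p' (mem_insert_of_mem hp')
        rw [Nat.coprime_primes this.1 hpp.1]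
        rintro rfl
        exact hpT hp'
    obtain ⟨y, hy1, hy2⟩ := Nat.chineseRemainder hcop x (c p)
    refine ⟨y, fun n => ?_⟩
    rw [Finset.prod_insert hpT]
    have e1 : M * (p * ∏ p ∈ T, p) = (M * ∏ p ∈ T, p) * p := by ring
    rw [e1, ← Nat.modEq_and_modEq_iff_modEq_mul hcop]
    have hcp := hc p (mem_insert_self _ _)
    have e2 : n ≡ y [MOD p] ↔ n % p = c p := by
      constructor
      · intro h
        have := h.trans hy2
        unfold Nat.ModEq at this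
        rwa [Nat.mod_eq_of_lt hcp] at this
      · intro h
        refine Nat.ModEq.trans ?_ hy2.symm
        unfold Nat.ModEq
        rw [Nat.mod_eq_of_lt hcp, h]
    have e3 : n ≡ y [MOD (M * ∏ p ∈ T, p)] ↔ n ≡ x [MOD (M * ∏ p ∈ T, p)] :=
      ⟨fun h => h.trans hy1, fun h => h.trans hy1.symm⟩
    rw [e2, e3, ← hx n]
    constructor
    · rintro ⟨h1, h2⟩
      exact ⟨⟨h1, fun p' hp' => h2 p' (mem_insert_of_mem hp')⟩, h2 p (mem_insert_self _ _)⟩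
    · rintro ⟨⟨h1, h2⟩, h3⟩
      refine ⟨h1, fun p' hp' => ?_⟩
      rcases mem_insert.1 hp' with h | h
      · rw [h]; exact h3
      · exact h2 p' h

lemma fl_modcount (n1 n2 M x : ℕ) (hM : 0 < M) (hn : n1 ≤ n2) :
    |(#((Ioc n1 n2).filter (fun n => n ≡ x [MOD M])) : ℝ) - ((n2 : ℝ) - n1) / M| ≤ 1 := by
  have h := Nat.Ioc_filter_modEq_card n1 n2 hM x
  have hMq : (0 : ℚ) < M := by exact_mod_cast hM
  have h1 : ((#((Ioc n1 n2).filter (fun n => n ≡ x [MOD M])) : ℤ) : ℚ) =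
      max ((⌊((n2 : ℚ) - x) / M⌋ : ℚ) - ⌊((n1 : ℚ) - x) / M⌋) 0 := by
    rw [h]; push_cast; rfl
  have h2 := Int.floor_le (((n2 : ℚ) - x) / M)
  have h3 := Int.lt_floor_add_one (((n2 : ℚ) - x) / M)
  have h4 := Int.floor_le (((n1 : ℚ) - x) / M)
  have h5 := Int.lt_floor_add_one (((n1 : ℚ) - x) / M)
  have h6 : (0 : ℚ) ≤ (n2 : ℚ) - n1 := by
    have : (n1 : ℚ) ≤ n2 := by exact_mod_cast hn
    linarith
  have h7 : ((n2 : ℚ) - x) / M - ((n1 : ℚ) - x) / M = ((n2 : ℚ) - n1) / M := by ring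
  have h8 : |((#((Ioc n1 n2).filter (fun n => n ≡ x [MOD M])) : ℕ) : ℚ) - ((n2 : ℚ) - n1) / M| ≤ 1 := by
    have h9 : ((#((Ioc n1 n2).filter (fun n => n ≡ x [MOD M])) : ℕ) : ℚ) =
      max ((⌊((n2 : ℚ) - x) / M⌋ : ℚ) - ⌊((n1 : ℚ) - x) / M⌋) 0 := by
      rw [← h1]; push_cast; rfl
    rw [h9]
    have h10 : 0 ≤ ((n2 : ℚ) - n1) / M := by positivity
    rw [abs_le]
    constructor
    · have := le_max_left ((⌊((n2 : ℚ) - x) / M⌋ : ℚ) - ⌊((n1 : ℚ) - x) / M⌋) 0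
      linarith
    · have : max ((⌊((n2 : ℚ) - x) / M⌋ : ℚ) - ⌊((n1 : ℚ) - x) / M⌋) 0 ≤ 1 + ((n2 : ℚ) - n1) / M := by
        apply max_le <;> linarith
      linarith
  have h11 : |(((#((Ioc n1 n2).filter (fun n => n ≡ x [MOD M])) : ℕ) : ℚ) - ((n2 : ℚ) - n1) / M : ℚ)| ≤ (1 : ℚ) := h8
  have h12 : ((|(((#((Ioc n1 n2).filter (fun n => n ≡ x [MOD M])) : ℕ) : ℚ) - ((n2 : ℚ) - n1) / M : ℚ)| : ℚ) : ℝ) ≤ ((1 : ℚ) : ℝ) := by
    exact_mod_cast h11
  push_cast at h12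
  exact h12

lemma fl_classcount (n1 n2 M ν : ℕ) (hν : ν < M) (hn : n1 ≤ n2) (T : Finset ℕ) (c : ℕ → ℕ)
    (hT : ∀ p ∈ T, p.Prime ∧ ¬ p ∣ M) (hc : ∀ p ∈ T, c p < p) :
    |(#(((Ioc n1 n2).filter (fun n => n % M = ν)).filter (fun n => ∀ p ∈ T, n % p = c p)) : ℝ) -
      ((n2 : ℝ) - n1) / M * ∏ p ∈ T, (1 / (p : ℝ))| ≤ 1 := by
  obtain ⟨x, hx⟩ := fl_crt M ν hν T c hT hc
  have h1 : ((Ioc n1 n2).filter (fun n => n % M = ν)).filter (fun n => ∀ p ∈ T, n % p = c p) =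
      (Ioc n1 n2).filter (fun n => n ≡ x [MOD (M * ∏ p ∈ T, p)]) := by
    rw [Finset.filter_filter]
    apply Finset.filter_congr
    intro n _
    exact hx n
  rw [h1]
  have hpos : 0 < M * ∏ p ∈ T, p := by
    apply Nat.mul_pos (by omega)
    exact Finset.prod_pos fun p hp => (hT p hp).1.pos
  have h2 := fl_modcount n1 n2 (M * ∏ p ∈ T, p) x hpos hn
  have h3 : ((n2 : ℝ) - n1) / M * ∏ p ∈ T, (1 / (p : ℝ)) = ((n2 : ℝ) - n1) / ((M * ∏ p ∈ T, p : ℕ) : ℝ) := by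
    push_cast
    rw [Finset.prod_div_distrib, Finset.prod_const_one]
    rw [div_mul_div_comm, mul_one]
  rw [h3]
  exact h2

/-- the number of the good residue classes -/
lemma fl_goodcount (M0 : ℕ) (hM0 : 0 < M0) (N0 : Finset ℕ) (hN0 : N0 ⊆ range M0) (Q : Finset ℕ)
    (Om : ℕ → Finset ℕ) (hQ : ∀ p ∈ Q, p.Prime ∧ ¬ p ∣ M0) (hOm : ∀ p ∈ Q, Om p ⊆ range p) :
    #((range (M0 * ∏ p ∈ Q, p)).filter (fun ν => ν % M0 ∈ N0 ∧ ∀ p ∈ Q, ν % p ∉ Om p)) =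
      #N0 * ∏ p ∈ Q, (p - #(Om p)) := by
  classical
  induction Q using Finset.induction_on with
  | empty =>
    simp only [Finset.notMem_empty, false_imp_iff, implies_true, and_true, Finset.prod_empty, mul_one]
    congr 1
    ext ν
    rw [mem_filter, mem_range]
    constructor
    · rintro ⟨h1, h2⟩
      rwa [Nat.mod_eq_of_lt h1] at h2
    · intro h
      have := mem_range.1 (hN0 h)
      exact ⟨this, by rwa [Nat.mod_eq_of_lt this]⟩
  | insert p Q hpQ ih =>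
    have ih' := ih (fun p' hp' => hQ p' (mem_insert_of_mem hp'))
      (fun p' hp' => hOm p' (mem_insert_of_mem hp'))
    have hpp := hQ p (mem_insert_self _ _)
    obtain ⟨M, hM⟩ : ∃ M, M = M0 * ∏ p ∈ Q, p := ⟨_, rfl⟩
    have hMpos : 0 < M := by
      rw [hM]
      exact Nat.mul_pos hM0 (Finset.prod_pos fun p hp => (hQ p (mem_insert_of_mem hp)).1.pos)
    have hcop : M.Coprime p := by
      rw [hM]
      apply Nat.Coprime.mul_left
      · exact ((Nat.Prime.coprime_iff_not_dvd hpp.1).2 hpp.2).symm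
      · apply Nat.Coprime.prod_left
        intro p' hp'
        have := hQ p' (mem_insert_of_mem hp')
        rw [Nat.coprime_primes this.1 hpp.1]
        rintro rfl
        exact hpQ hp'
    rw [Finset.prod_insert hpQ, Finset.prod_insert hpQ]
    have e1 : M0 * (p * ∏ p ∈ Q, p) = M * p := by rw [hM]; ring
    have e2 : #N0 * ((p - #(Om p)) * ∏ p ∈ Q, (p - #(Om p))) =
        (#N0 * ∏ p ∈ Q, (p - #(Om p))) * (p - #(Om p)) := by ring
    rw [e1, e2, ← ih', ← hM]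
    have e3 : p - #(Om p) = #((range p) \ Om p) := by
      rw [Finset.card_sdiff_of_subset (hOm p (mem_insert_self _ _)), card_range]
    rw [e3, ← Finset.card_product]
    have hM0M : M0 ∣ M := by rw [hM]; exact Dvd.intro _ rfl
    have hpM : ∀ p' ∈ Q, p' ∣ M := by
      intro p' hp'
      rw [hM]
      exact Dvd.dvd.mul_left (Finset.dvd_prod_of_mem _ hp') _
    apply Finset.card_bij (fun ν _ => (ν % M, ν % p))
    · intro ν hν
      rw [mem_filter, mem_range] at hν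
      rw [mem_product, mem_filter, mem_range, Finset.mem_sdiff, mem_range]
      refine ⟨⟨Nat.mod_lt _ hMpos, ?_, ?_⟩, Nat.mod_lt _ hpp.1.pos, hν.2.2 p (mem_insert_self _ _)⟩
      · simp only
        rw [Nat.mod_mod_of_dvd _ hM0M]; exact hν.2.1
      · intro p' hp'
        simp only
        rw [Nat.mod_mod_of_dvd _ (hpM p' hp')]
        exact hν.2.2 p' (mem_insert_of_mem hp')
    · intro ν hν ν' hν' h
      rw [mem_filter, mem_range] at hν hν'
      rw [Prod.mk.injEq] at h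
      have := (Nat.modEq_and_modEq_iff_modEq_mul hcop).1 ⟨h.1, h.2⟩
      exact this.eq_of_lt_of_lt hν.1 hν'.1
    · rintro ⟨u, v⟩ huv
      rw [mem_product, mem_filter, mem_range, Finset.mem_sdiff, mem_range] at huv
      obtain ⟨⟨hu, hu1, hu2⟩, hv, hv1⟩ := huv
      simp only at hu hu1 hu2 hv hv1
      obtain ⟨y, hy1, hy2⟩ := Nat.chineseRemainder hcop u v
      refine ⟨y % (M * p), ?_, ?_⟩
      · rw [mem_filter, mem_range]
        have hyM : y % M = u := by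
          have := hy1; unfold Nat.ModEq at this; rwa [Nat.mod_eq_of_lt hu] at this
        have hyp : y % p = v := by
          have := hy2; unfold Nat.ModEq at this; rwa [Nat.mod_eq_of_lt hv] at this
        refine ⟨Nat.mod_lt _ (Nat.mul_pos hMpos hpp.1.pos), ?_, ?_⟩
        · rw [Nat.mod_mod_of_dvd _ (hM0M.mul_right p), ← Nat.mod_mod_of_dvd y hM0M, hyM]
          exact hu1
        · intro p' hp'
          rcases mem_insert.1 hp' with h | h
          · rw [h, Nat.mod_mod_of_dvd _ (Dvd.intro_left _ rfl), hyp]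
            exact hv1
          · rw [Nat.mod_mod_of_dvd _ ((hpM p' h).mul_right p), ← Nat.mod_mod_of_dvd y (hpM p' h), hyM]
            exact hu2 p' h
      · simp only [Prod.mk.injEq]
        constructor
        · rw [Nat.mod_mod_of_dvd _ (Dvd.intro _ rfl)]
          have := hy1; unfold Nat.ModEq at this; rwa [Nat.mod_eq_of_lt hu] at this
        · rw [Nat.mod_mod_of_dvd _ (Dvd.intro_left _ rfl)]
          have := hy2; unfold Nat.ModEq at this; rwa [Nat.mod_eq_of_lt hv] at this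

open Classical in
/-- the fundamental lemma for intervals of natural numbers -/
theorem gen8 : ∃ C : ℕ, 1 ≤ C ∧ ∀ (b J z0 n2 : ℕ) (P' : Finset ℕ) (Om : ℕ → Finset ℕ),
    C ≤ b → C ≤ z0 → (∀ p ∈ P', p.Prime ∧ p ≤ 2 ^ 2 ^ J) → (∀ p ∈ P', Om p ⊆ range p) →
    (∀ p ∈ P', #(Om p) ≤ 8) →
    |(#((Ioc 0 n2).filter (fun n => ∀ p ∈ P', n % p ∉ Om p)) : ℝ) -
      (n2 : ℝ) * ∏ p ∈ P', (1 - (#(Om p) : ℝ) / p)| ≤
      (1 / 2) ^ b * ((n2 : ℝ) * ∏ p ∈ P', (1 - (#(Om p) : ℝ) / p)) +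
        (z0 : ℝ) ^ z0 * (((J : ℝ) + 2) * (((2 ^ 2 ^ J : ℕ) : ℝ) ^ (C * b)) ^ 2) := by
  obtain ⟨C, hC, H⟩ := Pool.Agent.TH882.FL.fl1 8
  refine ⟨C, hC, ?_⟩
  intro b J z0 n2 P' Om hb hz0 hP' hOm hOmc
  have hz01 : 1 ≤ z0 := le_trans hC hz0
  obtain ⟨Q, hQ⟩ : ∃ Q, Q = P'.filter (fun p => p ≤ z0) := ⟨_, rfl⟩
  obtain ⟨P, hP⟩ : ∃ P, P = P'.filter (fun p => ¬ p ≤ z0) := ⟨_, rfl⟩
  obtain ⟨M, hM⟩ : ∃ M, M = 1 * ∏ p ∈ Q, p := ⟨_, rfl⟩
  have hQP' : ∀ p ∈ Q, p ∈ P' ∧ p ≤ z0 := by intro p hp; rw [hQ] at hp; exact mem_filter.1 hp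
  have hPP' : ∀ p ∈ P, p ∈ P' ∧ ¬ p ≤ z0 := by intro p hp; rw [hP] at hp; exact mem_filter.1 hp
  have hQpos : 0 < ∏ p ∈ Q, p := Finset.prod_pos fun p hp => (hP' p (hQP' p hp).1).1.pos
  have hMpos : 0 < M := by rw [hM, one_mul]; exact hQpos
  obtain ⟨N, hN⟩ : ∃ N, N = (range M).filter (fun ν => ν % 1 ∈ range 1 ∧ ∀ p ∈ Q, ν % p ∉ Om p) :=
    ⟨_, rfl⟩
  have hpM : ∀ p' ∈ Q, p' ∣ M := by
    intro p' hp'
    rw [hM]
    exact Dvd.dvd.mul_left (Finset.dvd_prod_of_mem _ hp') _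
  have hPM : ∀ p ∈ P, ¬ p ∣ M := by
    intro p hp hd
    have hpp := (hP' p (hPP' p hp).1)
    rw [hM, one_mul, Prime.dvd_finsetProd_iff hpp.1.prime] at hd
    obtain ⟨p', hp', hd'⟩ := hd
    have hp'p := (hP' p' (hQP' p' hp').1)
    rw [Nat.prime_dvd_prime_iff_eq hpp.1 hp'p.1] at hd'
    rw [hd'] at hp
    exact (hPP' _ hp).2 (hQP' _ hp').2
  have hNcard : #N = ∏ p ∈ Q, (p - #(Om p)) := by
    rw [hN, hM]
    have h1 := fl_goodcount 1 one_pos (range 1) subset_rfl Q Om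
      (fun p hp => ⟨(hP' p (hQP' p hp).1).1, fun hd =>
        (hP' p (hQP' p hp).1).1.one_lt.ne' (Nat.dvd_one.1 hd)⟩)
      (fun p hp => hOm p (hQP' p hp).1)
    rw [h1, card_range, one_mul]
  have hOmle : ∀ p ∈ P', #(Om p) ≤ p := by
    intro p hp
    have := Finset.card_le_card (hOm p hp)
    rwa [card_range] at this
  -- the decomposition
  have hdec : #((Ioc 0 n2).filter (fun n => ∀ p ∈ P', n % p ∉ Om p)) =
      ∑ ν ∈ N, #(((Ioc 0 n2).filter (fun n => n % M = ν)).filter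
        (fun n => ∀ p ∈ P, n % p ∉ Om p)) := by
    rw [Finset.card_eq_sum_card_fiberwise (f := fun n => n % M) (t := N)]
    · apply Finset.sum_congr rfl
      intro ν hν
      congr 1
      ext n
      simp only [mem_filter]
      rw [hN, mem_filter, mem_range] at hν
      constructor
      · rintro ⟨⟨h1, h3⟩, h4⟩
        exact ⟨⟨h1, h4⟩, fun p hp => h3 p (hPP' p hp).1⟩
      · rintro ⟨⟨h1, h4⟩, h3⟩
        refine ⟨⟨h1, ?_⟩, h4⟩
        intro p hp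
        by_cases hpz : p ≤ z0
        · have hpQ : p ∈ Q := by rw [hQ]; exact mem_filter.2 ⟨hp, hpz⟩
          rw [← Nat.mod_mod_of_dvd n (hpM p hpQ), h4]; exact hν.2.2 p hpQ
        · exact h3 p (by rw [hP]; exact mem_filter.2 ⟨hp, hpz⟩)
    · intro n hn'
      rw [mem_coe, mem_filter] at hn'
      rw [mem_coe, hN, mem_filter, mem_range]
      refine ⟨Nat.mod_lt _ hMpos, ?_, ?_⟩
      · rw [Nat.mod_one, mem_range]; exact one_pos
      · intro p hp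
        rw [Nat.mod_mod_of_dvd _ (hpM p hp)]
        exact hn'.2 p (hQP' p hp).1
  have hn' : (0 : ℝ) ≤ (n2 : ℝ) := Nat.cast_nonneg _
  have hMR : (0 : ℝ) < M := by exact_mod_cast hMpos
  -- the fundamental lemma for every class
  have hcl : ∀ ν ∈ N, |(#(((Ioc 0 n2).filter (fun n => n % M = ν)).filter
      (fun n => ∀ p ∈ P, n % p ∉ Om p)) : ℝ) -
      ((n2 : ℝ) / M) * ∏ p ∈ P, (1 - (#(Om p) : ℝ) / p)| ≤
      (1 / 2) ^ b * (((n2 : ℝ) / M) * ∏ p ∈ P, (1 - (#(Om p) : ℝ) / p)) +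
        ((J : ℝ) + 2) * (((2 ^ 2 ^ J : ℕ) : ℝ) ^ (C * b)) ^ 2 := by
    intro ν hν
    rw [hN, mem_filter, mem_range] at hν
    refine H b J z0 P Om hb hz0
      (fun p hp => ⟨(hP' p (hPP' p hp).1).1, not_le.1 (hPP' p hp).2, (hP' p (hPP' p hp).1).2⟩)
      (fun p hp => hOmc p (hPP' p hp).1)
      ((Ioc 0 n2).filter (fun n => n % M = ν)) ((n2 : ℝ) / M) (by positivity)
      (fun T hT c hc => ?_)
    have h3 := fl_classcount 0 n2 M ν hν.1 (Nat.zero_le _) T c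
      (fun p hp => ⟨(hP' p (hPP' p (hT hp)).1).1, hPM p (hT hp)⟩)
      (fun p hp => mem_range.1 (hOm p (hPP' p (hT hp)).1 (hc p hp)))
    have e1 : (n2 : ℝ) / M / ∏ p ∈ T, (p : ℝ) =
        ((n2 : ℝ) - (0 : ℕ)) / M * ∏ p ∈ T, (1 / (p : ℝ)) := by
      rw [Nat.cast_zero, sub_zero, Finset.prod_div_distrib, Finset.prod_const_one]
      ring
    rw [e1]
    exact h3
  have hsum := Finset.abs_sum_le_sum_abs (fun ν => (#(((Ioc 0 n2).filter
      (fun n => n % M = ν)).filter (fun n => ∀ p ∈ P, n % p ∉ Om p)) : ℝ) -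
      ((n2 : ℝ) / M) * ∏ p ∈ P, (1 - (#(Om p) : ℝ) / p)) N
  have hsum2 := hsum.trans (Finset.sum_le_sum hcl)
  rw [Finset.sum_sub_distrib, Finset.sum_const, Finset.sum_const, nsmul_eq_mul, nsmul_eq_mul,
    ← Nat.cast_sum, ← hdec] at hsum2
  have hmainT : (#N : ℝ) * (((n2 : ℝ) / M) * ∏ p ∈ P, (1 - (#(Om p) : ℝ) / p)) =
      (n2 : ℝ) * ∏ p ∈ P', (1 - (#(Om p) : ℝ) / p) := by
    have e1 : ∏ p ∈ P', (1 - (#(Om p) : ℝ) / p) =
        (∏ p ∈ Q, (1 - (#(Om p) : ℝ) / p)) * ∏ p ∈ P, (1 - (#(Om p) : ℝ) / p) := by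
      rw [hQ, hP, Finset.prod_filter_mul_prod_filter_not]
    have e3 : (#N : ℝ) = ∏ p ∈ Q, ((p : ℝ) - #(Om p)) := by
      rw [hNcard]
      push_cast
      apply Finset.prod_congr rfl
      intro p hp
      rw [Nat.cast_sub (hOmle p (hQP' p hp).1)]
    have e4 : ∏ p ∈ Q, ((p : ℝ) - #(Om p)) =
        (∏ p ∈ Q, (p : ℝ)) * ∏ p ∈ Q, (1 - (#(Om p) : ℝ) / p) := by
      rw [← Finset.prod_mul_distrib]
      apply Finset.prod_congr rfl
      intro p hp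
      have : (p : ℝ) ≠ 0 := by exact_mod_cast (hP' p (hQP' p hp).1).1.ne_zero
      field_simp
    have e5 : (M : ℝ) = ∏ p ∈ Q, (p : ℝ) := by rw [hM]; push_cast; ring
    have h6 : (0 : ℝ) < ∏ p ∈ Q, (p : ℝ) := by
      rw [← e5]
      exact hMR
    rw [e1, e3, e4, e5]
    field_simp
  rw [mul_add, hmainT] at hsum2
  have e7 : (#N : ℝ) * ((1 / 2) ^ b * (((n2 : ℝ) / M) * ∏ p ∈ P, (1 - (#(Om p) : ℝ) / p))) =
      (1 / 2) ^ b * ((n2 : ℝ) * ∏ p ∈ P', (1 - (#(Om p) : ℝ) / p)) := by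
    rw [← hmainT]; ring
  rw [e7] at hsum2
  refine hsum2.trans ?_
  have h9 : (#N : ℝ) ≤ (z0 : ℝ) ^ z0 := by
    have h10 : #N ≤ z0 ^ z0 := by
      rw [hNcard]
      calc ∏ p ∈ Q, (p - #(Om p)) ≤ ∏ _p ∈ Q, z0 := by
            apply Finset.prod_le_prod'
            intro p hp
            have := (hQP' p hp).2
            omega
        _ = z0 ^ #Q := by rw [Finset.prod_const]
        _ ≤ z0 ^ z0 := by
            apply Nat.pow_le_pow_right hz01
            have h11 : Q ⊆ Icc 1 z0 := by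
              intro p hp
              rw [mem_Icc]
              exact ⟨(hP' p (hQP' p hp).1).1.one_le, (hQP' p hp).2⟩
            have := Finset.card_le_card h11
            rwa [Nat.card_Icc, Nat.add_sub_cancel] at this
    exact_mod_cast h10
  have h12 : (#N : ℝ) * (((J : ℝ) + 2) * (((2 ^ 2 ^ J : ℕ) : ℝ) ^ (C * b)) ^ 2) ≤
      (z0 : ℝ) ^ z0 * (((J : ℝ) + 2) * (((2 ^ 2 ^ J : ℕ) : ℝ) ^ (C * b)) ^ 2) := by
    gcongr
  linarith

/-- the shifted classes -/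
def sh (a : ℤ) (Om : ℕ → Finset ℕ) (p : ℕ) : Finset ℕ :=
  (range p).filter (fun c : ℕ => ((a + c) % p).toNat ∈ Om p)

lemma mem_sh (a : ℤ) (Om : ℕ → Finset ℕ) {p : ℕ} (hp : 0 < p) (n : ℕ) :
    n % p ∈ sh a Om p ↔ ((a + n) % p).toNat ∈ Om p := by
  unfold sh
  rw [mem_filter, mem_range]
  have h1 : (a + ((n % p : ℕ) : ℤ)) % p = (a + n) % p := by
    push_cast
    exact Int.ModEq.add_left a (Int.mod_modEq _ _)
  rw [h1]
  exact ⟨fun h => h.2, fun h => ⟨Nat.mod_lt _ hp, h⟩⟩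

lemma card_sh (a : ℤ) (Om : ℕ → Finset ℕ) {p : ℕ} (hp : 0 < p) (h : Om p ⊆ range p) :
    #(sh a Om p) = #(Om p) := by
  have hpz : (p : ℤ) ≠ 0 := by exact_mod_cast hp.ne'
  have hpz' : (0 : ℤ) < p := by exact_mod_cast hp
  refine Finset.card_bij (fun c _ => ((a + c) % p).toNat) (fun c hc => ?_) (fun c hc c' hc' he => ?_)
    (fun d hd => ?_)
  · exact (mem_filter.1 hc).2
  · have h1 := mem_range.1 (mem_filter.1 hc).1
    have h2 := mem_range.1 (mem_filter.1 hc').1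
    have h3 := Int.emod_nonneg (a + c) hpz
    have h4 := Int.emod_nonneg (a + c') hpz
    have h5 : (a + c) % p = (a + c') % p := by omega
    have h6 : (a + c) ≡ (a + c') [ZMOD p] := h5
    have h7 : (c : ℤ) ≡ (c' : ℤ) [ZMOD p] := Int.ModEq.add_left_cancel' a h6
    have h8 : c ≡ c' [MOD p] := (Int.natCast_modEq_iff).1 h7
    exact h8.eq_of_lt_of_lt h1 h2
  · have h1 := mem_range.1 (h hd)
    have h3 := Int.emod_nonneg ((d : ℤ) - a) hpz
    have h4 := Int.emod_lt_of_pos ((d : ℤ) - a) hpz'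
    have h5 : ((a + (((((d : ℤ) - a) % p).toNat : ℕ) : ℤ)) % p).toNat = d := by
      rw [Int.toNat_of_nonneg h3]
      have h6 : (a + ((d : ℤ) - a) % p) % p = (a + ((d : ℤ) - a)) % p :=
        Int.ModEq.add_left a (Int.mod_modEq _ _)
      rw [h6, add_sub_cancel, Int.emod_eq_of_lt (Int.natCast_nonneg d) (by exact_mod_cast h1)]
      exact Int.toNat_natCast d
    refine ⟨(((d : ℤ) - a) % p).toNat, ?_, h5⟩
    unfold sh
    rw [mem_filter, mem_range, h5]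
    exact ⟨by omega, hd⟩

lemma exists_J (z1 : ℕ) (hz : 2 ≤ z1) : ∃ J : ℕ, z1 ≤ 2 ^ 2 ^ J ∧ 2 ^ 2 ^ J ≤ z1 ^ 2 := by
  have hex : ∃ J : ℕ, z1 ≤ 2 ^ 2 ^ J := by
    refine ⟨z1, ?_⟩
    have h1 : z1 < 2 ^ z1 := Nat.lt_two_pow_self
    have h2 : 2 ^ z1 < 2 ^ 2 ^ z1 := Nat.pow_lt_pow_right (by norm_num) h1
    omega
  refine ⟨Nat.find hex, Nat.find_spec hex, ?_⟩
  rcases Nat.eq_zero_or_pos (Nat.find hex) with h | h
  · rw [h, pow_zero, pow_one]
    nlinarith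
  · have h1 : ¬ z1 ≤ 2 ^ 2 ^ (Nat.find hex - 1) := Nat.find_min hex (by omega)
    push Not at h1
    obtain ⟨j, hj⟩ : ∃ j, Nat.find hex = j + 1 := ⟨Nat.find hex - 1, by omega⟩
    rw [hj] at h1 ⊢
    rw [Nat.add_sub_cancel] at h1
    rw [pow_succ 2 j, pow_mul]
    exact Nat.pow_le_pow_left h1.le 2

theorem err (C z1 b J : ℕ) (hz : 2 ≤ z1) (hb : 1 ≤ b) (hJ : 2 ^ 2 ^ J ≤ z1 ^ 2) :
    (C : ℝ) ^ C * (((J : ℝ) + 2) * (((2 ^ 2 ^ J : ℕ) : ℝ) ^ (C * b)) ^ 2) ≤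
      (z1 : ℝ) ^ ((C * C + 2 + 4 * C) * b) := by
  have h1 : C ^ C ≤ z1 ^ (C * C) := by
    rw [pow_mul]
    refine Nat.pow_le_pow_left ?_ C
    exact (Nat.lt_two_pow_self (n := C)).le.trans (Nat.pow_le_pow_left hz C)
  have h2 : J + 2 ≤ z1 ^ 2 := by
    refine le_trans ?_ hJ
    have h3 : J < 2 ^ J := Nat.lt_two_pow_self
    have h4 : 2 ^ J < 2 ^ 2 ^ J := Nat.lt_two_pow_self
    omega
  have h3 : ((2 ^ 2 ^ J) ^ (C * b)) ^ 2 ≤ z1 ^ (4 * C * b) := by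
    calc ((2 ^ 2 ^ J) ^ (C * b)) ^ 2 ≤ ((z1 ^ 2) ^ (C * b)) ^ 2 :=
          Nat.pow_le_pow_left (Nat.pow_le_pow_left hJ _) 2
      _ = z1 ^ (4 * C * b) := by
          rw [← pow_mul, ← pow_mul]
          congr 1
          ring
  have h4 : C ^ C * ((J + 2) * ((2 ^ 2 ^ J) ^ (C * b)) ^ 2) ≤ z1 ^ ((C * C + 2 + 4 * C) * b) := by
    calc C ^ C * ((J + 2) * ((2 ^ 2 ^ J) ^ (C * b)) ^ 2)
        ≤ z1 ^ (C * C) * (z1 ^ 2 * z1 ^ (4 * C * b)) :=
          Nat.mul_le_mul h1 (Nat.mul_le_mul h2 h3)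
      _ = z1 ^ (C * C + (2 + 4 * C * b)) := by rw [← pow_add, ← pow_add]
      _ ≤ z1 ^ ((C * C + 2 + 4 * C) * b) := by
          refine Nat.pow_le_pow_right (by omega) ?_
          nlinarith [Nat.zero_le (C * C)]
  exact_mod_cast h4

theorem t_FLC : Pool.Agent.N728.QL.S_FLC := by
  classical
  obtain ⟨C, hC, H⟩ := gen8
  refine ⟨C * C + 2 + 4 * C, by omega, fun b z1 Om J1 J2 hb hz hOm hJ => ?_⟩
  have hCb : C ≤ b := by nlinarith
  obtain ⟨J, hJ1, hJ2⟩ := exists_J z1 hz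
  set P' := (Ioc 0 z1).filter Nat.Prime with hP'
  have hmem : ∀ p, p ∈ P' ↔ p.Prime ∧ p ≤ z1 := by
    intro p
    rw [hP', mem_filter, mem_Ioc]
    exact ⟨fun h => ⟨h.2, h.1.2⟩, fun h => ⟨⟨h.1.pos, h.2⟩, h.1⟩⟩
  set n2 := (J2 - J1).toNat with hn2
  have hn2' : (n2 : ℤ) = J2 - J1 := Int.toNat_of_nonneg (by omega)
  have hn2R : (n2 : ℝ) = (J2 : ℝ) - J1 := by
    have : ((n2 : ℤ) : ℝ) = ((J2 - J1 : ℤ) : ℝ) := by rw [hn2']
    push_cast at this
    exact this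
  have hcard : ∀ p ∈ P', #(sh J1 Om p) = #(Om p) := fun p hp =>
    card_sh J1 Om ((hmem p).1 hp).1.pos (hOm p ((hmem p).1 hp).1 ((hmem p).1 hp).2).1
  have h1 := H b J C n2 P' (sh J1 Om) hCb le_rfl
    (fun p hp => ⟨((hmem p).1 hp).1, ((hmem p).1 hp).2.trans hJ1⟩)
    (fun p _ => filter_subset _ _)
    (fun p hp => by
      rw [hcard p hp]
      exact (hOm p ((hmem p).1 hp).1 ((hmem p).1 hp).2).2)
  have hprod : ∏ p ∈ P', (1 - (#(sh J1 Om p) : ℝ) / p) = ∏ p ∈ P', (1 - (#(Om p) : ℝ) / p) :=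
    Finset.prod_congr rfl fun p hp => by rw [hcard p hp]
  rw [hprod, hn2R] at h1
  have hset : #((Ioc J1 J2).filter
      (fun t : ℤ => ∀ p : ℕ, p.Prime → p ≤ z1 → (t % p).toNat ∉ Om p)) =
      #((Ioc 0 n2).filter (fun n => ∀ p ∈ P', n % p ∉ sh J1 Om p)) := by
    symm
    refine Finset.card_bij (fun n _ => J1 + (n : ℤ)) (fun n hn => ?_) (fun n _ n' _ h => ?_)
      (fun t ht => ?_)
    · rw [mem_filter, mem_Ioc] at hn ⊢
      refine ⟨by omega, fun p hp hpz hc => ?_⟩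
      exact hn.2 p ((hmem p).2 ⟨hp, hpz⟩) ((mem_sh J1 Om hp.pos n).2 hc)
    · omega
    · rw [mem_filter, mem_Ioc] at ht
      refine ⟨(t - J1).toNat, ?_, by omega⟩
      rw [mem_filter, mem_Ioc]
      refine ⟨by omega, fun p hp hc => ?_⟩
      have h2 := (mem_sh J1 Om ((hmem p).1 hp).1.pos _).1 hc
      have h3 : J1 + (((t - J1).toNat : ℕ) : ℤ) = t := by omega
      rw [h3] at h2
      exact ht.2 p ((hmem p).1 hp).1 ((hmem p).1 hp).2 h2
  have h2 : #((Ioc J1 J2).filter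
      (fun t : ℤ => ∀ p : ℕ, p.Prime → p ≤ z1 → (t % p).toNat ∉ Om p)) =
      #((Ioc 0 n2).filter (fun n => ∀ p ∈ P', n % p ∉ sh J1 Om p)) := hset
  have h3 := err C z1 b J hz (by omega) hJ2
  rw [← h2] at h1
  refine le_trans ?_ (h1.trans ?_)
  · exact le_of_eq (by congr!)
  · linarith

end Pool.Agent.N136.QL
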